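import Mathlib

/-! Number of cycles of a permutation. -/

namespace Run7.B243

open Equiv

/-- number of cycles (fixed points included) -/
noncomputable def cyc {D : Type*} (f : Perm D) : ℕ := Nat.card (Quot (fun a b => b = f a))

/-- the class of an element -/
def cl {D : Type*} (f : Perm D) (a : D) : Quot (fun a b => b = f a) := Quot.mk _ a

variable {D : Type*}

theorem cl_apply (f : Perm D) (a : D) : cl f (f a) = cl f a :=
  (Quot.sound (r := fun a b => b = f a) rfl).symm

theorem cl_symm_apply (f : Perm D) (a : D) : cl f (f⁻¹ a) = cl f a := by
  have := cl_apply f (f⁻¹ a)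
  simpa using this.symm

instance [Finite D] (f : Perm D) : Finite (Quot (fun a b : D => b = f a)) :=
  Finite.of_surjective (Quot.mk _) Quot.mk_surjective

theorem cl_pow_apply (f : Perm D) (k : ℕ) (a : D) : cl f ((f ^ k) a) = cl f a := by
  induction k with
  | zero => simp
  | succ k ih => rw [pow_succ', Perm.mul_apply, cl_apply, ih]

theorem cyc_one [Finite D] : cyc (1 : Perm D) = Nat.card D := by
  unfold cyc
  refine Nat.card_congr (Equiv.mk (Quot.lift id (by intro a b h; simpa using h.symm)) (Quot.mk _) ?_ ?_)
  · intro q; induction q using Quot.ind; rfl
  · intro a; rfl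

variable [DecidableEq D]

/-- lift used for swaps -/
noncomputable def hmap (f : Perm D) (a b : D) :
    Quot (fun x y => y = (f * swap a b) x) → Quot (fun x y => y = f x) := by
  classical
  exact Quot.lift (fun x => if cl f x = cl f b then cl f a else cl f x) (by
    intro x y h
    subst h
    rw [Perm.mul_apply, cl_apply]
    by_cases hxa : x = a
    · subst hxa
      rw [swap_apply_left]
      by_cases h : cl f x = cl f b <;> simp [h]
    · by_cases hxb : x = b
      · subst hxb
        rw [swap_apply_right]
        by_cases h : cl f a = cl f x <;> simp [h]
      · rw [swap_apply_of_ne_of_ne hxa hxb])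

theorem hmap_cl (f : Perm D) (a b x : D) (h : cl f x ≠ cl f b) :
    hmap f a b (cl (f * swap a b) x) = cl f x := by
  classical
  show (if cl f x = cl f b then cl f a else cl f x) = _
  rw [if_neg h]

theorem cyc_le_swap [Finite D] (f : Perm D) (a b : D) : cyc f ≤ cyc (f * swap a b) + 1 := by
  classical
  unfold cyc
  rw [← Finite.card_option]
  refine Nat.card_le_card_of_surjective
    (fun o => match o with
      | none => cl f b
      | some q => hmap f a b q) ?_
  intro q
  induction q using Quot.ind with
  | mk x =>
    by_cases h : cl f x = cl f b
    · exact ⟨none, h.symm⟩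
    · exact ⟨some (cl _ x), hmap_cl f a b x h⟩

theorem merge_cl [Finite D] (f : Perm D) (a b : D) (hab : cl f a ≠ cl f b) :
    cl (f * swap a b) a = cl (f * swap a b) b := by
  have key : ∀ i : ℕ, cl (f * swap a b) ((f ^ (i + 1)) b) = cl (f * swap a b) a ∨
      cl (f * swap a b) a = cl (f * swap a b) b := by
    intro i
    induction i with
    | zero =>
      left
      have := cl_apply (f * swap a b) a
      rw [Perm.mul_apply, swap_apply_left] at this
      simpa using this
    | succ i ih =>
      rcases ih with ih | ih
      · by_cases h1 : (f ^ (i + 1)) b = b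
        · right; rw [h1] at ih; exact ih.symm
        · left
          have h2 : (f ^ (i + 1)) b ≠ a := by
            intro h; apply hab; rw [← h, cl_pow_apply]
          have := cl_apply (f * swap a b) ((f ^ (i + 1)) b)
          rw [Perm.mul_apply, swap_apply_of_ne_of_ne h2 h1, ih] at this
          rw [pow_succ' f (i + 1), Perm.mul_apply]
          exact this
      · right; exact ih
  have hfin : ∃ n, 0 < n ∧ f ^ n = 1 := by
    exact ⟨orderOf f, orderOf_pos f, pow_orderOf_eq_one f⟩
  obtain ⟨n, hn, hf⟩ := hfin
  obtain ⟨i, rfl⟩ : ∃ i, n = i + 1 := ⟨n - 1, by omega⟩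
  rcases key i with h | h
  · rw [hf] at h; exact h.symm
  · exact h

theorem merge_cl_apply [Finite D] (f : Perm D) (a b : D) (hab : cl f a ≠ cl f b) (x : D) :
    cl (f * swap a b) (f x) = cl (f * swap a b) x := by
  by_cases hxa : x = a
  · subst hxa
    have := cl_apply (f * swap x b) b
    rw [Perm.mul_apply, swap_apply_right] at this
    rw [this, merge_cl f x b hab]
  · by_cases hxb : x = b
    · subst hxb
      have := cl_apply (f * swap a x) a
      rw [Perm.mul_apply, swap_apply_left] at this
      rw [this, merge_cl f a x hab]
    · have := cl_apply (f * swap a b) x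
      rw [Perm.mul_apply, swap_apply_of_ne_of_ne hxa hxb] at this
      exact this

theorem merge_cyc [Finite D] (f : Perm D) (a b : D) (hab : cl f a ≠ cl f b) :
    cyc (f * swap a b) + 1 = cyc f := by
  classical
  unfold cyc
  rw [← Finite.card_option]
  let g : Quot (fun x y => y = f x) → Quot (fun x y => y = (f * swap a b) x) :=
    Quot.lift (fun x => cl (f * swap a b) x) (by
      intro x y h; subst h; exact (merge_cl_apply f a b hab x).symm)
  have hg : ∀ x, g (cl f x) = cl (f * swap a b) x := fun x => rfl
  symm
  refine Nat.card_eq_of_bijective
    (fun q => if q = cl f b then none else some (g q)) ⟨?_, ?_⟩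
  · intro q q' h
    induction q using Quot.ind with
    | mk x =>
    induction q' using Quot.ind with
    | mk y =>
    change (if cl f x = cl f b then none else some (g (cl f x))) =
      (if cl f y = cl f b then none else some (g (cl f y))) at h
    change cl f x = cl f y
    by_cases hx : cl f x = cl f b
    · by_cases hy : cl f y = cl f b
      · rw [hx, hy]
      · simp [hx, hy] at h
    · by_cases hy : cl f y = cl f b
      · simp [hx, hy] at h
      · rw [if_neg hx, if_neg hy, hg, hg] at h
        have h2 := congrArg (hmap f a b) (Option.some.inj h)
        rwa [hmap_cl f a b x hx, hmap_cl f a b y hy] at h2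
  · intro o
    cases o with
    | none => exact ⟨cl f b, by simp⟩
    | some q =>
      induction q using Quot.ind with
      | mk x =>
        by_cases hx : cl f x = cl f b
        · refine ⟨cl f a, ?_⟩
          simp only [if_neg hab, hg]
          congr 1
          have h1 : g (cl f x) = g (cl f b) := by rw [hx]
          rw [hg, hg] at h1
          change _ = cl (f * swap a b) x
          rw [h1, merge_cl f a b hab]
        · exact ⟨cl f x, by simp only [if_neg hx]; rfl⟩

theorem cyc_swap_parity [Fintype D] (f : Perm D) :
    (-1 : ℤˣ) ^ cyc f = (-1) ^ Fintype.card D * Perm.sign f := by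
  classical
  -- induction on the size of the support
  suffices h : ∀ n : ℕ, ∀ f : Perm D, f.support.card ≤ n →
      (-1 : ℤˣ) ^ cyc f = (-1) ^ Fintype.card D * Perm.sign f from h _ f le_rfl
  intro n
  induction n with
  | zero =>
    intro f hf
    have : f = 1 := by
      rw [← Perm.support_eq_empty_iff]
      exact Finset.card_eq_zero.mp (Nat.le_zero.mp hf)
    subst this
    rw [cyc_one, Nat.card_eq_fintype_card]
    simp
  | succ n ih =>
    intro f hf
    by_cases h1 : f = 1
    · subst h1
      rw [cyc_one, Nat.card_eq_fintype_card]
      simp
    · obtain ⟨a, ha⟩ : ∃ a, f a ≠ a := by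
        by_contra hcon
        push Not at hcon
        exact h1 (Equiv.ext hcon)
      set c := f⁻¹ a with hc
      have hca : c ≠ a := by
        intro h
        apply ha
        have : f (f⁻¹ a) = a := by simp
        rw [← hc, h] at this
        exact this
      set g := f * swap a c with hg
      have hga : g a = a := by
        rw [hg, Perm.mul_apply, swap_apply_left, hc]; simp
      have hfg : g * swap a c = f := by
        rw [hg, mul_assoc, swap_mul_self, mul_one]
      have hcl : cl g a ≠ cl g c := by
        intro h
        -- the class of `a` is a singleton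
        let F : Quot (fun x y => y = g x) → Prop := Quot.lift (fun x => x = a) (by
          intro x y hxy
          subst hxy
          apply propext
          constructor
          · intro h; rw [h, hga]
          · intro h
            apply g.injective
            rw [h, hga])
        have h2 : F (cl g a) := rfl
        rw [h] at h2
        exact hca h2
      have hm := merge_cyc g a c hcl
      rw [hfg] at hm
      have hsupp : g.support.card ≤ n := by
        have hsub : g.support ⊂ f.support := by
          refine Finset.ssubset_iff_of_subset ?_ |>.mpr ⟨a, by simpa using ha, by simpa using hga⟩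
          intro x hx
          rw [Perm.mem_support] at hx ⊢
          intro hfx
          apply hx
          by_cases hxa : x = a
          · rw [hxa, hga]
          · by_cases hxc : x = c
            · exfalso
              rw [hxc, hc] at hfx
              apply hca
              rw [hc]
              simpa using hfx.symm
            · rw [hg, Perm.mul_apply, swap_apply_of_ne_of_ne hxa hxc, hfx]
        have := Finset.card_lt_card hsub
        omega
      have hs : Perm.sign f = - Perm.sign g := by
        rw [← hfg, Perm.sign_mul, Perm.sign_swap hca.symm]
        simp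
      rw [hs]
      have h3 := ih g hsupp
      rw [← hm, pow_succ] at h3
      have h4 : (-1 : ℤˣ) ^ cyc f = - ((-1 : ℤˣ) ^ Fintype.card D * Perm.sign g) := by
        rw [← h3]; simp
      rw [h4]
      simp

omit [DecidableEq D] in
/-- weights: if every class has weight at most `6`, the number of classes is bounded below -/
theorem cyc_weight [Fintype D] (f : Perm D) (wt : D → ℕ) (T : D → Finset D)
    (hT : ∀ x, T (f x) = T x) (hx : ∀ x, x ∈ T x) (c : ℕ) (hc : ∀ x, ∑ y ∈ T x, wt y ≤ c) :
    ∑ x, wt x ≤ c * cyc f := by
  classical
  have : Fintype (Quot (fun x y => y = f x)) := Fintype.ofFinite _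
  unfold cyc
  rw [Nat.card_eq_fintype_card]
  rw [← Finset.sum_fiberwise (s := Finset.univ) (g := fun x => cl f x) (f := wt)]
  have : ∀ q : Quot (fun x y => y = f x), ∑ x ∈ Finset.univ.filter (fun x => cl f x = q), wt x ≤ c := by
    intro q
    induction q using Quot.ind with
    | mk x =>
      refine le_trans (Finset.sum_le_sum_of_subset ?_) (hc x)
      intro y hy
      rw [Finset.mem_filter] at hy
      let F : Quot (fun x y => y = f x) → Finset D := Quot.lift T (by
        intro x y hxy; subst hxy; exact (hT x).symm)
      have h1 : F (cl f y) = F (cl f x) := by rw [hy.2]; rfl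
      change T y = T x at h1
      rw [← h1]; exact hx y
  calc _ ≤ ∑ _q : Quot (fun x y => y = f x), c := Finset.sum_le_sum (fun q _ => this q)
    _ = _ := by rw [Finset.sum_const, Finset.card_univ, smul_eq_mul, mul_comm]

end Run7.B243
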