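import Pool.Agent.Run7.h243.Base.Orient

/-! Elementary facts on Heawood's number. -/

namespace Run7.B243

theorem H_spec (ε : ℤ) (m : ℕ) (hm : 1 ≤ m) (hε : ε ≤ 2) :
    6 * ε ≤ H ε m * (6 * m + 1 - H ε m) ∧ (H ε m + 1) * (6 * m - H ε m) < 6 * ε ∧
      0 < H ε m ∧ 6 * m < 2 * H ε m + 1 := by
  set n := H ε m with hn
  have hm' : (1 : ℝ) ≤ m := by exact_mod_cast hm
  have hε' : (ε : ℝ) ≤ 2 := by exact_mod_cast hε
  have hD : 0 ≤ (6 * (m : ℝ) + 1) ^ 2 - 24 * (ε : ℝ) := by nlinarith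
  set r := Real.sqrt ((6 * (m : ℝ) + 1) ^ 2 - 24 * (ε : ℝ)) with hr
  have hr0 : 0 ≤ r := Real.sqrt_nonneg _
  have hr2 : r * r = (6 * (m : ℝ) + 1) ^ 2 - 24 * (ε : ℝ) := Real.mul_self_sqrt hD
  have h1 : (n : ℝ) ≤ (6 * (m : ℝ) + 1 + r) / 2 := Int.floor_le _
  have h2 : (6 * (m : ℝ) + 1 + r) / 2 < n + 1 := Int.lt_floor_add_one _
  have hnpos : (0 : ℝ) < n + 1 - 3 * m := by linarith
  have hnposZ : 0 < n + 1 - 3 * m := by exact_mod_cast hnpos
  have hmZ : (1 : ℤ) ≤ m := by exact_mod_cast hm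
  refine ⟨?_, ?_, by omega, ?_⟩
  · have : (6 * (ε : ℝ)) ≤ n * (6 * m + 1 - n) := by
      by_cases hc : (2 * (n : ℝ) - 6 * m - 1) ≤ 0
      · -- then n ≤ 3m + 1/2, and n + 1 > 3m + 1/2 + r/2
        have h3 : -r ≤ 2 * (n : ℝ) - 6 * m - 1 ∨ 2 * (n : ℝ) - 6 * m - 1 < -r := by
          exact le_or_gt _ _
        rcases h3 with h3 | h3
        · nlinarith
        · have h4 : r < 2 := by linarith
          have h5 : (ε : ℝ) ≤ 2 := hε'
          have h6 : r < 1 := by linarith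
          nlinarith
      · push Not at hc
        nlinarith
    exact_mod_cast this
  · have : ((n : ℝ) + 1) * (6 * m - n) < 6 * ε := by nlinarith
    exact_mod_cast this
  · have : (6 * (m : ℝ)) < 2 * n + 1 := by linarith
    exact_mod_cast this

theorem euler_le (s : Surface) : s.euler ≤ 2 := by
  cases s <;> simp [Surface.euler] <;> omega

end Run7.B243
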